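import Mathlib

set_option autoImplicit false
set_option linter.unusedSectionVars false

namespace Pool.Agent.Results.MP_ee4cf4_an.Yes

open Set Filter Topology Real MeasureTheory

variable {X : Type*} [NormedAddCommGroup X] [NormedSpace ℝ X]

/-- `w` restricted to `J` is bounded and uniformly continuous -/
def BUC (J : Set ℝ) (w : ℝ → X) : Prop :=
  (∃ C, ∀ t ∈ J, ‖w t‖ ≤ C) ∧ UniformContinuousOn w J

/-- `w` restricted to `J` lies in `BUC(J,X) + cos(t^2) BUC(J,X)` -/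
def Acos (J : Set ℝ) (w : ℝ → X) : Prop :=
  ∃ u v : ℝ → X, BUC J u ∧ BUC J v ∧ ∀ t ∈ J, w t = u t + Real.cos (t ^ 2) • v t

variable {J : Set ℝ}

lemma uc_eps {F : ℝ → X} : UniformContinuousOn F J ↔
    ∀ ε > 0, ∃ δ > 0, ∀ s ∈ J, ∀ t ∈ J, |s - t| < δ → ‖F s - F t‖ < ε := by
  rw [Metric.uniformContinuousOn_iff]
  simp only [dist_eq_norm, Real.norm_eq_abs]

lemma uc_iff {F : ℝ → X} : UniformContinuousOn F J ↔
    Tendsto (fun p : ℝ × ℝ => F p.1 - F p.2) (uniformity ℝ ⊓ 𝓟 (J ×ˢ J)) (𝓝 0) := by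
  rw [UniformContinuousOn, tendsto_uniformity_iff_dist_tendsto_zero]
  simp only [dist_eq_norm]
  exact tendsto_zero_iff_norm_tendsto_zero.symm

lemma BUC.congr {F G : ℝ → X} (h : BUC J F) (e : ∀ t ∈ J, F t = G t) : BUC J G := by
  obtain ⟨⟨C, h1⟩, h2⟩ := h
  refine ⟨⟨C, fun t ht => e t ht ▸ h1 t ht⟩, ?_⟩
  rw [uc_eps] at h2 ⊢
  intro ε hε
  obtain ⟨δ, hδ, h3⟩ := h2 ε hε
  exact ⟨δ, hδ, fun s hs t ht h => by rw [← e s hs, ← e t ht]; exact h3 s hs t ht h⟩

lemma BUC.add {F G : ℝ → X} (h : BUC J F) (h' : BUC J G) : BUC J (fun t => F t + G t) := by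
  obtain ⟨⟨C, h1⟩, h2⟩ := h
  obtain ⟨⟨D, h3⟩, h4⟩ := h'
  refine ⟨⟨C + D, fun t ht => (norm_add_le _ _).trans (add_le_add (h1 t ht) (h3 t ht))⟩, ?_⟩
  rw [uc_iff] at h2 h4 ⊢
  simpa [add_sub_add_comm] using h2.add h4

lemma BUC.acos {F : ℝ → X} (h : BUC J F) : Acos J F :=
  ⟨F, fun _ => 0, h, ⟨⟨0, fun _ _ => by simp⟩, uniformContinuous_const.uniformContinuousOn⟩, fun t _ => by simp⟩

lemma phase {η : ℝ} (hη : 0 < η) {t0 : ℝ} (h : π / η ≤ |t0|) (φ : ℝ) :
    ∃ t, |t - t0| ≤ η ∧ ∃ n : ℤ, t ^ 2 = φ + n * (2 * π) := by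
  have hp := pi_pos
  have key : ∀ x : ℝ, π / η ≤ x → ∃ t, |t - x| ≤ η ∧ ∃ n : ℤ, t ^ 2 = φ + n * (2 * π) := by
    intro x hx
    have hx0 : 0 < x := lt_of_lt_of_le (by positivity) hx
    have hx1 : π ≤ x * η := by rwa [div_le_iff₀ hη] at hx
    set n := ⌈(x ^ 2 - φ) / (2 * π)⌉ with hn
    have a1 : x ^ 2 ≤ φ + n * (2 * π) := by
      have := Int.le_ceil ((x ^ 2 - φ) / (2 * π))
      rw [div_le_iff₀ (by positivity)] at this; linarith
    have a2 : φ + n * (2 * π) ≤ x ^ 2 + 2 * π := by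
      have := (Int.ceil_lt_add_one ((x ^ 2 - φ) / (2 * π))).le
      rw [← hn, ← sub_le_iff_le_add, le_div_iff₀ (by positivity)] at this; linarith
    refine ⟨√(φ + n * (2 * π)), ?_, n, Real.sq_sqrt (by nlinarith)⟩
    have b1 : x ≤ √(φ + n * (2 * π)) := Real.le_sqrt_of_sq_le a1
    have b2 : √(φ + n * (2 * π)) ≤ x + η := Real.sqrt_le_iff.mpr ⟨by linarith, by nlinarith⟩
    rw [abs_le]; constructor <;> linarith
  rcases le_total 0 t0 with h0 | h0
  · exact key t0 (by rwa [abs_of_nonneg h0] at h)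
  · obtain ⟨t, h1, n, h2⟩ := key (-t0) (by rwa [abs_of_nonpos h0] at h)
    refine ⟨-t, ?_, n, by rw [neg_sq]; exact h2⟩
    rw [show -t - t0 = -(t - -t0) by ring, abs_neg]; exact h1

structure Adm (J : Set ℝ) : Prop where
  up : ∀ s ∈ J, ∀ t, s ≤ t → t ∈ J
  deep : ∀ K : ℝ, ∃ R, ∀ s ∈ J, R ≤ |s| → ∀ t, s - K ≤ t → t ∈ J

lemma adm (hJ : J = univ ∨ ∃ α, J = Ici α ∨ J = Ioi α) : Adm J := by
  rcases hJ with rfl | ⟨α, rfl | rfl⟩
  · exact ⟨fun _ _ _ _ => trivial, fun _ => ⟨0, fun _ _ _ _ _ => trivial⟩⟩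
  · refine ⟨fun s hs t h => le_trans hs h, fun K => ⟨|α| + |K| + 1, fun s hs h t ht => ?_⟩⟩
    simp only [mem_Ici] at hs ⊢
    cases abs_cases s <;> cases abs_cases α <;> cases abs_cases K <;> linarith
  · refine ⟨fun s hs t h => lt_of_lt_of_le hs h, fun K => ⟨|α| + |K| + 1, fun s hs h t ht => ?_⟩⟩
    simp only [mem_Ioi] at hs ⊢
    cases abs_cases s <;> cases abs_cases α <;> cases abs_cases K <;> linarith

/-- the oscillating part of a difference vanishes at infinity -/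
lemma decay (h : Adm J) {f : ℝ → X} (hA : ∀ a, 0 < a → Acos J (fun t => f (t + a) - f t))
    {a : ℝ} (ha : 0 < a) {u v : ℝ → X} (hu : BUC J u) (hv : BUC J v)
    (e : ∀ t ∈ J, f (t + a) - f t = u t + cos (t ^ 2) • v t) {ε : ℝ} (hε : 0 < ε) :
    ∃ R, ∀ s ∈ J, R ≤ |s| → ‖v s‖ ≤ ε := by
  have hp := pi_pos
  obtain ⟨δ, hδ, hv1⟩ := uc_eps.mp hv.2 (ε / 5) (by positivity)
  set b := 4 * π / δ with hb
  have hb0 : 0 < b := by positivity
  obtain ⟨u1, v1, hu1, -, e1⟩ := hA b hb0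
  obtain ⟨u2, v2, hu2, -, e2⟩ := hA (a + b) (by linarith)
  obtain ⟨δ0, hδ0, h0⟩ := uc_eps.mp hu.2 (ε / 5) (by positivity)
  obtain ⟨δ1, hδ1, h1⟩ := uc_eps.mp hu1.2 (ε / 5) (by positivity)
  obtain ⟨δ2, hδ2, h2⟩ := uc_eps.mp hu2.2 (ε / 5) (by positivity)
  obtain ⟨η, hη, hη0, hη1, hη2, hη3, hη4⟩ :
      ∃ η : ℝ, 0 < η ∧ 2 * η < δ0 ∧ 2 * η < δ1 ∧ 2 * η < δ2 ∧ 2 * η < δ ∧ 4 * b * η ≤ 1 := by
    refine ⟨min (min (δ0 / 3) (δ1 / 3)) (min (min (δ2 / 3) (δ / 3)) (1 / (4 * b))), by positivity,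
      ?_, ?_, ?_, ?_, ?_⟩
    · linarith [min_le_left (min (δ0 / 3) (δ1 / 3)) (min (min (δ2 / 3) (δ / 3)) (1 / (4 * b))),
        min_le_left (δ0 / 3) (δ1 / 3)]
    · linarith [min_le_left (min (δ0 / 3) (δ1 / 3)) (min (min (δ2 / 3) (δ / 3)) (1 / (4 * b))),
        min_le_right (δ0 / 3) (δ1 / 3)]
    · linarith [min_le_right (min (δ0 / 3) (δ1 / 3)) (min (min (δ2 / 3) (δ / 3)) (1 / (4 * b))),
        min_le_left (min (δ2 / 3) (δ / 3)) (1 / (4 * b)), min_le_left (δ2 / 3) (δ / 3)]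
    · linarith [min_le_right (min (δ0 / 3) (δ1 / 3)) (min (min (δ2 / 3) (δ / 3)) (1 / (4 * b))),
        min_le_left (min (δ2 / 3) (δ / 3)) (1 / (4 * b)), min_le_right (δ2 / 3) (δ / 3)]
    · rw [← le_div_iff₀' (by positivity)]
      exact (min_le_right _ _).trans (min_le_right _ _)
  obtain ⟨R, hR⟩ := h.deep (b + δ)
  refine ⟨max R (π / η + b + δ), fun s hs hsR => ?_⟩
  have hs1 : R ≤ |s| := (le_max_left _ _).trans hsR
  have hs2 : π / η + b + δ ≤ |s| := (le_max_right _ _).trans hsR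
  -- the base point t0, where the slow phase is π/2
  obtain ⟨t0, k, ht0, hk⟩ : ∃ (t0 : ℝ) (k : ℤ), |t0 + b - s| ≤ δ / 4 ∧
      2 * b * t0 + b ^ 2 = π / 2 + k * (2 * π) := by
    set k := ⌈(2 * b * (s - b) + b ^ 2 - π / 2) / (2 * π)⌉ with hk
    have a1 := Int.le_ceil ((2 * b * (s - b) + b ^ 2 - π / 2) / (2 * π))
    have a2 := (Int.ceil_lt_add_one ((2 * b * (s - b) + b ^ 2 - π / 2) / (2 * π))).le
    rw [← hk, div_le_iff₀ (by positivity)] at a1
    rw [← hk, ← sub_le_iff_le_add, le_div_iff₀ (by positivity)] at a2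
    refine ⟨(π / 2 + k * (2 * π) - b ^ 2) / (2 * b), k, ?_, by field_simp; ring⟩
    have hbδ : b * δ = 4 * π := by rw [hb]; field_simp
    have c1 : s - b ≤ (π / 2 + k * (2 * π) - b ^ 2) / (2 * b) := by
      rw [le_div_iff₀ (by positivity)]; nlinarith
    have c2 : (π / 2 + k * (2 * π) - b ^ 2) / (2 * b) ≤ s - b + δ / 4 := by
      rw [div_le_iff₀ (by positivity)]; nlinarith
    rw [abs_le]; constructor <;> linarith
  have ht0' : π / η ≤ |t0| := by
    rw [abs_le] at ht0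
    cases abs_cases s <;> cases abs_cases t0 <;> linarith [ht0.1, ht0.2]
  have sig : ∀ t, |t - t0| ≤ η → 1 / 2 ≤ sin (2 * b * t + b ^ 2) := by
    intro t ht
    have a1 := Real.abs_sin_sub_sin_le (2 * b * t + b ^ 2) (2 * b * t0 + b ^ 2)
    rw [hk, Real.sin_add_int_mul_two_pi, Real.sin_pi_div_two, ← hk,
      show 2 * b * t + b ^ 2 - (2 * b * t0 + b ^ 2) = 2 * b * (t - t0) by ring, abs_mul,
      abs_of_pos (by positivity : 0 < 2 * b)] at a1
    have a2 : 2 * b * |t - t0| ≤ 2 * b * η := by gcongr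
    linarith [neg_abs_le (sin (2 * b * t + b ^ 2) - 1)]
  have mem : ∀ t, |t - t0| ≤ η → t ∈ J ∧ t + b ∈ J ∧ |t + b - s| < δ := by
    intro t ht
    rw [abs_le] at ht ht0
    have := hR s hs hs1 t (by linarith [ht.1, ht0.1])
    exact ⟨this, h.up _ this _ (by linarith), by
      rw [abs_lt]; constructor <;> linarith [ht.1, ht.2, ht0.1, ht0.2]⟩
  have coc : ∀ t ∈ J, cos ((t + b) ^ 2) • v (t + b) =
      u2 t - u1 t - u (t + b) + cos (t ^ 2) • (v2 t - v1 t) := by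
    intro t ht
    have a1 := e _ (h.up _ ht (t + b) (by linarith))
    have a2 := e1 t ht
    have a3 := e2 t ht
    simp only at a2 a3
    rw [show t + b + a = t + (a + b) by ring] at a1
    linear_combination (norm := module) a3 - a2 - a1
  obtain ⟨t1, ht1, n1, hn1⟩ := phase hη ht0' (π / 2)
  obtain ⟨t2, ht2, n2, hn2⟩ := phase hη ht0' (-(π / 2))
  obtain ⟨m1, m1', m1''⟩ := mem t1 ht1
  obtain ⟨m2, m2', m2''⟩ := mem t2 ht2
  have c1 := coc t1 m1
  have c2 := coc t2 m2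
  rw [show (t1 + b) ^ 2 = (2 * b * t1 + b ^ 2 + π / 2) + n1 * (2 * π) by linear_combination hn1,
    hn1, Real.cos_add_int_mul_two_pi, Real.cos_add_int_mul_two_pi, Real.cos_pi_div_two,
    Real.cos_add_pi_div_two] at c1
  rw [show (t2 + b) ^ 2 = (2 * b * t2 + b ^ 2 - π / 2) + n2 * (2 * π) by linear_combination hn2,
    hn2, Real.cos_add_int_mul_two_pi, Real.cos_add_int_mul_two_pi, Real.cos_neg,
    Real.cos_pi_div_two, Real.cos_sub_pi_div_two] at c2
  have s1 := sig t1 ht1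
  have s2 := sig t2 ht2
  set σ1 := sin (2 * b * t1 + b ^ 2)
  set σ2 := sin (2 * b * t2 + b ^ 2)
  have s1' : σ1 ≤ 1 := Real.sin_le_one _
  have s2' : σ2 ≤ 1 := Real.sin_le_one _
  have d12 : |t2 - t1| ≤ 2 * η := by
    rw [abs_le] at ht1 ht2 ⊢; constructor <;> linarith [ht1.1, ht1.2, ht2.1, ht2.2]
  have E : (σ1 + σ2) • v s = (u2 t2 - u2 t1) - (u1 t2 - u1 t1) - (u (t2 + b) - u (t1 + b))
      - σ1 • (v (t1 + b) - v s) - σ2 • (v (t2 + b) - v s) := by
    linear_combination (norm := module) c2 - c1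
  have b1 := h2 t2 m2 t1 m1 (by linarith)
  have b2 := h1 t2 m2 t1 m1 (by linarith)
  have b3 := h0 _ m2' _ m1' (by rw [add_sub_add_right_eq_sub]; linarith)
  have b4 : ‖σ1 • (v (t1 + b) - v s)‖ ≤ ε / 5 := by
    rw [norm_smul, Real.norm_of_nonneg (by linarith)]
    nlinarith [hv1 _ m1' s hs m1'', norm_nonneg (v (t1 + b) - v s)]
  have b5 : ‖σ2 • (v (t2 + b) - v s)‖ ≤ ε / 5 := by
    rw [norm_smul, Real.norm_of_nonneg (by linarith)]
    nlinarith [hv1 _ m2' s hs m2'', norm_nonneg (v (t2 + b) - v s)]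
  have b6 : ‖(σ1 + σ2) • v s‖ ≤ ε := by
    rw [E]
    refine (norm_sub_le _ _).trans ?_
    have := norm_sub_le ((u2 t2 - u2 t1) - (u1 t2 - u1 t1) - (u (t2 + b) - u (t1 + b)))
      (σ1 • (v (t1 + b) - v s))
    have := norm_sub_le ((u2 t2 - u2 t1) - (u1 t2 - u1 t1)) (u (t2 + b) - u (t1 + b))
    have := norm_sub_le (u2 t2 - u2 t1) (u1 t2 - u1 t1)
    linarith
  rw [norm_smul, Real.norm_of_nonneg (by linarith)] at b6
  nlinarith [norm_nonneg (v s)]

lemma diff_buc (h : Adm J) {f : ℝ → X} (hA : ∀ a, 0 < a → Acos J (fun t => f (t + a) - f t))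
    {a : ℝ} (ha : 0 < a) : BUC J (fun t => f (t + a) - f t) := by
  obtain ⟨u, v, hu, hv, e⟩ := hA a ha
  refine (hu.add (G := fun t => cos (t ^ 2) • v t) ?_).congr fun t ht => (e t ht).symm
  obtain ⟨C, hC⟩ := hv.1
  have hc : ∀ t : ℝ, ∀ x : X, ‖cos (t ^ 2) • x‖ ≤ ‖x‖ := fun t x => by
    rw [norm_smul]
    exact mul_le_of_le_one_left (norm_nonneg _) (Real.abs_cos_le_one _)
  refine ⟨⟨C, fun t ht => (hc t _).trans (hC t ht)⟩, uc_eps.mpr fun ε hε => ?_⟩
  obtain ⟨R, hR⟩ := decay h hA ha hu hv e (show 0 < ε / 3 by positivity)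
  obtain ⟨δ, hδ, h1⟩ := uc_eps.mp hv.2 (ε / 2) (by positivity)
  set M := (2 * |R| + 3) * (|C| + 1) with hM
  have hM0 : 0 < M := by positivity
  refine ⟨min (min 1 δ) (ε / 2 / M), by positivity, fun s hs t ht hst => ?_⟩
  have a1 : |s - t| < 1 := hst.trans_le ((min_le_left _ _).trans (min_le_left _ _))
  have a2 : |s - t| < δ := hst.trans_le ((min_le_left _ _).trans (min_le_right _ _))
  have a3 : |s - t| * M ≤ ε / 2 := by
    rw [← le_div_iff₀ hM0]; exact (hst.trans_le (min_le_right _ _)).le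
  have a4 := abs_sub_abs_le_abs_sub t s
  have a5 := abs_sub_abs_le_abs_sub s t
  rw [abs_sub_comm] at a4
  rcases le_total |t| (|R| + 1) with h2 | h2
  · have e' : cos (s ^ 2) • v s - cos (t ^ 2) • v t =
        cos (s ^ 2) • (v s - v t) + (cos (s ^ 2) - cos (t ^ 2)) • v t := by module
    rw [e']
    refine (norm_add_le _ _).trans_lt ?_
    have b1 := (hc s _).trans_lt (h1 s hs t ht a2)
    have b2 : ‖(cos (s ^ 2) - cos (t ^ 2)) • v t‖ ≤ |s - t| * M := by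
      rw [norm_smul, hM, ← mul_assoc]
      refine mul_le_mul ((Real.abs_cos_sub_cos_le _ _).trans ?_)
        ((hC t ht).trans (by linarith [le_abs_self C])) (norm_nonneg _) (by positivity)
      rw [show s ^ 2 - t ^ 2 = (s - t) * (s + t) by ring, abs_mul]
      gcongr
      linarith [abs_add_le s t]
    linarith
  · have b1 := (hc s _).trans (hR s hs (by linarith [le_abs_self R]))
    have b2 := (hc t _).trans (hR t ht (by linarith [le_abs_self R]))
    linarith [norm_sub_le (cos (s ^ 2) • v s) (cos (t ^ 2) • v t)]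

lemma lemE {c : ℝ} (hc : 0 < c) (E : ℕ → Set ℝ) (hm : Monotone E)
    (hE : ∀ k, NullMeasurableSet (E k) (volume.restrict (Ioc 0 (2 * c))))
    (hall : ∀ s ∈ Ioc 0 (2 * c), ∃ k, s ∈ E k) :
    ∃ k, ∀ s ∈ Ioc 0 c, ∃ u, u ∈ E k ∧ u + s ∈ E k := by
  have h1 := tendsto_measure_iInter_atTop (μ := volume.restrict (Ioc 0 (2 * c)))
    (s := fun k => (E k)ᶜ) (fun k => (hE k).compl) (fun i j hij => compl_subset_compl.mpr (hm hij))
    ⟨0, measure_ne_top _ _⟩
  have h2 : volume.restrict (Ioc 0 (2 * c)) (⋂ k, (E k)ᶜ) = 0 := by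
    rw [Measure.restrict_apply' measurableSet_Ioc]
    convert measure_empty (μ := (volume : Measure ℝ))
    refine eq_empty_of_forall_notMem fun s hs => ?_
    obtain ⟨k, hk⟩ := hall s hs.2
    exact mem_iInter.mp hs.1 k hk
  rw [h2] at h1
  obtain ⟨k, hk⟩ := (h1.eventually (gt_mem_nhds
    (show (0 : ENNReal) < ENNReal.ofReal (c / 2) from ENNReal.ofReal_pos.mpr (by positivity)))).exists
  simp only [Function.comp, Measure.restrict_apply' measurableSet_Ioc] at hk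
  refine ⟨k, fun s hs => ?_⟩
  by_contra hn
  push Not at hn
  have h3 : Ioc 0 c ⊆ ((E k)ᶜ ∩ Ioc 0 (2 * c)) ∪ (fun u => u + s) ⁻¹' ((E k)ᶜ ∩ Ioc 0 (2 * c)) := by
    intro u hu
    by_cases h : u ∈ E k
    · exact Or.inr ⟨hn u h, by linarith [hu.1, hs.1], by linarith [hu.2, hs.2]⟩
    · exact Or.inl ⟨h, hu.1, by linarith [hu.2]⟩
  have h4 := (measure_mono (μ := volume) h3).trans (measure_union_le _ _)
  rw [measure_preimage_add_right, Real.volume_Ioc, sub_zero] at h4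
  have h5 := h4.trans_lt (ENNReal.add_lt_add hk hk)
  rw [← ENNReal.ofReal_add (by positivity) (by positivity), add_halves] at h5
  exact lt_irrefl _ h5

lemma shift_int (h : Adm J) {f : ℝ → X}
    (hf : ∀ a ∈ J, ∀ b ∈ J, IntegrableOn f (Icc a b)) {s : ℝ} (hs : s ∈ J) {c : ℝ} (hc : 0 ≤ c) :
    IntervalIntegrable (fun a => f (s + a)) volume 0 c := by
  have h1 : IntervalIntegrable f volume s (s + c) := by
    rw [intervalIntegrable_iff_integrableOn_Icc_of_le (by linarith)]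
    exact hf s hs _ (h.up _ hs _ (by linarith))
  simpa using h1.comp_add_left s

lemma unif (h : Adm J) {f : ℝ → X} (hf : ∀ a ∈ J, ∀ b ∈ J, IntegrableOn f (Icc a b))
    (hB : ∀ a, 0 < a → BUC J (fun t => f (t + a) - f t)) {c : ℝ} (hc : 0 < c) :
    ∃ K : ℝ, ∀ a ∈ Ioc 0 c, ∀ t ∈ J, ‖f (t + a) - f t‖ ≤ K := by
  by_contra hn
  push Not at hn
  choose a ha t ht hat using fun n : ℕ => hn n
  have hm : ∀ s ∈ J, ∀ k : ℕ, NullMeasurableSet {x | ‖f (s + x) - f s‖ ≤ k}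
      (volume.restrict (Ioc 0 (2 * c))) := fun s hs k =>
    nullMeasurableSet_le ((shift_int h hf hs (by positivity : 0 ≤ 2 * c)).1.aestronglyMeasurable.sub
      aestronglyMeasurable_const).norm.aemeasurable aemeasurable_const
  have hta : ∀ n, t n + a n ∈ J := fun n => h.up _ (ht n) _ (by linarith [(ha n).1])
  obtain ⟨k, hk⟩ := lemE hc
    (fun k => ⋂ n, {x | ‖f (t n + x) - f (t n)‖ ≤ k} ∩ {x | ‖f (t n + a n + x) - f (t n + a n)‖ ≤ k})
    (fun i j hij x hx => mem_iInter.mpr fun n =>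
      ⟨le_trans (b := (i : ℝ)) (mem_iInter.mp hx n).1 (Nat.cast_le.mpr hij),
        le_trans (b := (i : ℝ)) (mem_iInter.mp hx n).2 (Nat.cast_le.mpr hij)⟩)
    (fun k => NullMeasurableSet.iInter fun n => (hm _ (ht n) k).inter (hm _ (hta n) k))
    (fun s hs => by
      obtain ⟨C, hC⟩ := (hB s hs.1).1
      obtain ⟨k, hk⟩ := exists_nat_ge C
      exact ⟨k, mem_iInter.mpr fun n => ⟨(hC _ (ht n)).trans hk, (hC _ (hta n)).trans hk⟩⟩)
  obtain ⟨u, h1, h2⟩ := hk _ (ha (2 * k))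
  have a1 : ‖f (t (2 * k) + a (2 * k) + u) - f (t (2 * k) + a (2 * k))‖ ≤ k :=
    (mem_iInter.mp h1 (2 * k)).2
  have a2 : ‖f (t (2 * k) + (u + a (2 * k))) - f (t (2 * k))‖ ≤ k := (mem_iInter.mp h2 (2 * k)).1
  rw [show t (2 * k) + (u + a (2 * k)) = t (2 * k) + a (2 * k) + u by ring] at a2
  have a3 := hat (2 * k)
  have a4 := norm_sub_le (f (t (2 * k) + a (2 * k) + u) - f (t (2 * k)))
    (f (t (2 * k) + a (2 * k) + u) - f (t (2 * k) + a (2 * k)))
  rw [sub_sub_sub_cancel_left] at a4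
  push_cast at a3
  linarith

lemma delta [CompleteSpace X] (h : Adm J) {f : ℝ → X}
    (hf : ∀ a ∈ J, ∀ b ∈ J, IntegrableOn f (Icc a b))
    (hB : ∀ a, 0 < a → BUC J (fun t => f (t + a) - f t)) {c : ℝ} (hc : 0 < c) :
    BUC J (fun t => f t - (1 / c : ℝ) • ∫ s in t..t + c, f s) := by
  obtain ⟨K, hK⟩ := unif h hf hB hc
  have wi : ∀ t ∈ J, IntervalIntegrable (fun a => f (t + a) - f t) volume 0 c := fun t ht =>
    (shift_int h hf ht hc.le).sub intervalIntegrable_const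
  have ev : ∀ᶠ p : ℝ × ℝ in uniformity ℝ ⊓ 𝓟 (J ×ˢ J), p.1 ∈ J ∧ p.2 ∈ J :=
    mem_inf_of_right (mem_principal_self (J ×ˢ J))
  have hG : BUC J (fun t => ∫ a in (0 : ℝ)..c, (f (t + a) - f t)) := by
    refine ⟨⟨K * |c - 0|, fun t ht => intervalIntegral.norm_integral_le_of_norm_le_const
      fun a ha => hK a (by rwa [uIoc_of_le hc.le] at ha) t ht⟩, ?_⟩
    rw [uc_iff]
    have := intervalIntegral.tendsto_integral_filter_of_dominated_convergence (μ := volume)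
      (a := 0) (b := c) (l := uniformity ℝ ⊓ 𝓟 (J ×ˢ J))
      (F := fun p a => (f (p.1 + a) - f p.1) - (f (p.2 + a) - f p.2))
      (f := fun _ => 0) (fun _ => K + K) ?_ ?_ intervalIntegrable_const ?_
    · rw [intervalIntegral.integral_zero] at this
      refine this.congr' ?_
      filter_upwards [ev] with p hp
      exact intervalIntegral.integral_sub (wi _ hp.1) (wi _ hp.2)
    · filter_upwards [ev] with p hp
      exact (intervalIntegrable_iff.mp ((wi _ hp.1).sub (wi _ hp.2))).aestronglyMeasurable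
    · filter_upwards [ev] with p hp
      refine Eventually.of_forall fun a ha => (norm_sub_le _ _).trans ?_
      rw [uIoc_of_le hc.le] at ha
      exact add_le_add (hK a ha _ hp.1) (hK a ha _ hp.2)
    · refine Eventually.of_forall fun a ha => ?_
      rw [uIoc_of_le hc.le] at ha
      exact uc_iff.mp (hB a ha.1).2
  have hG' : BUC J (fun t => (-(1 / c) : ℝ) • ∫ a in (0 : ℝ)..c, (f (t + a) - f t)) := by
    obtain ⟨⟨C, h1⟩, h2⟩ := hG
    refine ⟨⟨‖(-(1 / c) : ℝ)‖ * C, fun t ht => ?_⟩,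
      (uniformContinuous_const_smul (-(1 / c) : ℝ)).comp_uniformContinuousOn h2⟩
    rw [norm_smul]; gcongr; exact h1 t ht
  refine hG'.congr fun t ht => ?_
  rw [intervalIntegral.integral_sub (shift_int h hf ht hc.le) intervalIntegrable_const,
    intervalIntegral.integral_comp_add_left, intervalIntegral.integral_const, add_zero, sub_zero,
    smul_sub, smul_smul, neg_mul, one_div_mul_cancel hc.ne']
  module

lemma loomis [CompleteSpace X] (h : Adm J) (hJ : MeasurableSet J) {f : ℝ → X}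
    (hm : AEStronglyMeasurable f (volume.restrict J)) {C : ℝ} (hC : ∀ t ∈ J, ‖f t‖ ≤ C)
    (hB : ∀ a, 0 < a → BUC J (fun t => f (t + a) - f t)) : BUC J f := by
  have hf : ∀ a ∈ J, ∀ b ∈ J, IntegrableOn f (Icc a b) := by
    intro a ha b _
    have hs : Icc a b ⊆ J := fun t ht => h.up _ ha _ ht.1
    refine ⟨hm.mono_measure (Measure.restrict_mono hs le_rfl),
      .restrict_of_bounded (C := C) measure_Icc_lt_top ?_⟩
    exact (ae_restrict_iff' measurableSet_Icc).mpr (Eventually.of_forall fun t ht => hC t (hs ht))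
  have ii : ∀ a ∈ J, ∀ b ∈ J, IntervalIntegrable f volume a b := by
    intro a ha b hb
    rcases le_total a b with h1 | h1
    · exact (intervalIntegrable_iff_integrableOn_Icc_of_le h1).mpr (hf a ha b hb)
    · exact ((intervalIntegrable_iff_integrableOn_Icc_of_le h1).mpr (hf b hb a ha)).symm
  have nb : ∀ a ∈ J, ∀ b ∈ J, ‖∫ s in a..b, f s‖ ≤ (|C| + 1) * |b - a| := by
    intro a ha b hb
    refine intervalIntegral.norm_integral_le_of_norm_le_const fun t ht => ?_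
    have : t ∈ J := by
      rcases le_total a b with h1 | h1
      · rw [uIoc_of_le h1] at ht; exact h.up _ ha _ ht.1.le
      · rw [uIoc_of_ge h1] at ht; exact h.up _ hb _ ht.1.le
    linarith [hC t this, le_abs_self C]
  have up1 : ∀ t ∈ J, t + 1 ∈ J := fun t ht => h.up _ ht _ (by linarith)
  have hM : BUC J (fun t => (1 / 1 : ℝ) • ∫ s in t..t + 1, f s) := by
    simp only [div_one, one_smul]
    refine ⟨⟨(|C| + 1) * |1|, fun t ht => by simpa using nb t ht _ (up1 t ht)⟩,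
      uc_eps.mpr fun ε hε => ⟨ε / (2 * (|C| + 1)), by positivity, fun s hs t ht hst => ?_⟩⟩
    rw [intervalIntegral.integral_interval_sub_interval_comm' (ii _ hs _ (up1 _ hs))
      (ii _ ht _ (up1 _ ht)) (ii _ hs _ ht)]
    have a1 := nb _ (up1 t ht) _ (up1 s hs)
    have a2 := nb _ ht _ hs
    rw [add_sub_add_right_eq_sub] at a1
    rw [lt_div_iff₀ (by positivity)] at hst
    linarith [norm_sub_le (∫ x in t + 1..s + 1, f x) (∫ x in t..s, f x)]
  exact ((delta h hf hB one_pos).add hM).congr fun t _ => by simp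

theorem result (J : Set ℝ) (hJ : J = univ ∨ ∃ α, J = Ici α ∨ J = Ioi α)
    (X : Type*) [NormedAddCommGroup X] [NormedSpace ℝ X] [CompleteSpace X] :
    (∀ f : ℝ → X, (∀ a ∈ J, ∀ b ∈ J, IntegrableOn f (Icc a b)) →
      (∀ a, 0 < a → Acos J (fun t => f (t + a) - f t)) →
      ∀ h, 0 < h → Acos J (fun t => f t - (1 / h : ℝ) • ∫ s in t..t + h, f s)) ∧
    (∀ f : ℝ → X, AEStronglyMeasurable f (volume.restrict J) → (∃ C, ∀ t ∈ J, ‖f t‖ ≤ C) →
      (∀ a, 0 < a → Acos J (fun t => f (t + a) - f t)) → Acos J f) := by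
  have h := adm hJ
  have hm : MeasurableSet J := by
    rcases hJ with rfl | ⟨α, rfl | rfl⟩
    exacts [MeasurableSet.univ, measurableSet_Ici, measurableSet_Ioi]
  exact ⟨fun f hf hA c hc => (delta h hf (fun a ha => diff_buc h hA ha) hc).acos,
    fun f hf ⟨C, hC⟩ hA => (loomis h hm hf hC (fun a ha => diff_buc h hA ha)).acos⟩

end Pool.Agent.Results.MP_ee4cf4_an.Yes
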